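import Mathlib

/-!
# Jack superpolynomials: the definitions of the statement

The definitions follow the problem file `MP_cf8419_co`.
-/

set_option autoImplicit false

namespace Pool.Agent.Helper61.JackStmt

/-- A superpartition of degree `(n|m)`: the set `fer` of the `m` fermionic parts
`Λ_1 > … > Λ_m ≥ 0` and the multiset `bos` of the positive bosonic parts
`Λ_{m+1} ≥ … ≥ Λ_ℓ > 0`, with total sum `n`. -/
@[ext] structure SuperPartition (n m : ℕ) where
  /-- the fermionic parts -/
  fer : Finset ℕ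
  /-- the bosonic parts -/
  bos : Multiset ℕ
  card_fer : fer.card = m
  bos_pos : ∀ x ∈ bos, 0 < x
  sum_eq : ∑ x ∈ fer, x + bos.sum = n

/-- The decreasing list of the elements of a multiset. -/
def dec (s : Multiset ℕ) : List ℕ := s.sort (· ≥ ·)

variable {n m : ℕ}

/-- `(Λ_1, …, Λ_m, Λ_{m+1}, …, Λ_ℓ)`: the fermionic parts in decreasing order followed by the
bosonic parts in decreasing order. -/
def parts (Λ : SuperPartition n m) : List ℕ := dec Λ.fer.val ++ dec Λ.bos

/-- The partition `Λ^*` (all parts sorted; a possible zero stays at the end). -/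
def star (Λ : SuperPartition n m) : List ℕ := dec (Λ.fer.val + Λ.bos)

/-- The partition `Λ^⊛` (the fermionic parts are increased by one). -/
def circ (Λ : SuperPartition n m) : List ℕ := dec (Λ.fer.val.map (fun x => x + 1) + Λ.bos)

/-- Comparison of all the partial sums of two lists. -/
def DomList (a b : List ℕ) : Prop := ∀ k : ℕ, (a.take k).sum ≤ (b.take k).sum

/-- The dominance order of superpartitions: `Ω ≤ Λ`. -/
def Dom (Ω Λ : SuperPartition n m) : Prop := DomList (star Ω) (star Λ) ∧ DomList (circ Ω) (circ Λ)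

/-- The length of the column `j ≥ 1` of the diagram with the row lengths `L`. -/
def colLen (L : List ℕ) (j : ℕ) : ℕ := L.countP (fun x => decide (j ≤ x))

/-- The set `𝓑Λ` of the boxes of the diagram of `Λ` which do not lie in both a row containing a
circle and a column containing a circle. The pair `(i, j)` is the box in row `i + 1` and column
`j`, with `0 ≤ i` and `1 ≤ j ≤ Λ^*_{i+1}`. The row contains a circle iff `Λ^*_{i+1} < Λ^⊛_{i+1}`,
the column contains a circle iff `(Λ^*)'_j < (Λ^⊛)'_j`. -/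
def boxes (Λ : SuperPartition n m) : Finset (ℕ × ℕ) :=
  ((Finset.range (star Λ).length) ×ˢ (Finset.Icc 1 n)).filter (fun b =>
    b.2 ≤ (star Λ).getD b.1 0 ∧
      ¬ ((star Λ).getD b.1 0 < (circ Λ).getD b.1 0 ∧ colLen (star Λ) b.2 < colLen (circ Λ) b.2))

/-- The polynomial `v_Λ(α) = ∏ (α a_{Λ^⊛}(s) + l_{Λ^*}(s) + 1)` in `ℤ[α]`, the product over the
boxes `s` of `𝓑Λ`. For the box `(i, j)` the arm is `Λ^⊛_{i+1} - j` and the leg is
`(Λ^*)'_j - (i + 1)`. -/
noncomputable def vPol (Λ : SuperPartition n m) : Polynomial ℤ :=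
  ∏ b ∈ boxes Λ, (Polynomial.C (((circ Λ).getD b.1 0 : ℤ) - (b.2 : ℤ)) * Polynomial.X +
    Polynomial.C ((colLen (star Λ) b.2 : ℤ) - ((b.1 : ℤ) + 1) + 1))

/-- `z_{Λ^s}` for the bosonic part. -/
def zee (Λ : SuperPartition n m) : ℕ :=
  ∏ k ∈ Λ.bos.toFinset, k ^ (Λ.bos.count k) * (Λ.bos.count k).factorial

/-- The order of the stabiliser of `Λ^s`, filled with zeros to `N - m` entries, in the group of the
permutations of the last `N - m` positions. -/
def aut (N : ℕ) (Λ : SuperPartition n m) : ℕ :=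
  (N - m - Multiset.card Λ.bos).factorial * ∏ k ∈ Λ.bos.toFinset, (Λ.bos.count k).factorial

/-- The field `ℚ(α)`. -/
abbrev K : Type := RatFunc ℚ

/-- The parameter `α`. -/
noncomputable def al : K := RatFunc.X

section
variable {A : Type} [Ring A] [Algebra K A] {N : ℕ}

/-- For elements `x_1, …, x_N` and `θ_1, …, θ_N` of a ring: the image under the permutation `σ`
(of the `x` and of the `θ`) of `x_1^{d_1} ⋯ x_N^{d_N} θ_1 ⋯ θ_m`. -/
def term (x θ : Fin N → A) (m : ℕ) (d : ℕ → ℕ) (σ : Equiv.Perm (Fin N)) : A :=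
  ((List.finRange N).map (fun i => x (σ i) ^ d i)).prod *
    (((List.finRange N).take m).map (fun i => θ (σ i))).prod

/-- The monomial symmetric superpolynomial `m_Λ` in `x_1, …, x_N`, `θ_1, …, θ_N`: the sum over all
`σ` of the images of `x_1^{Λ_1} ⋯ x_N^{Λ_N} θ_1 ⋯ θ_m`, divided by the number of repetitions. -/
noncomputable def mon (x θ : Fin N → A) (Λ : SuperPartition n m) : A :=
  ((aut N Λ : K)⁻¹) • ∑ σ : Equiv.Perm (Fin N), term x θ m (fun i => (parts Λ).getD i 0) σ

/-- `p̃_r = ∑ θ_i x_i^r`. -/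
def ptil (x θ : Fin N → A) (r : ℕ) : A := ∑ i : Fin N, x i ^ r * θ i

/-- `p_s = ∑ x_i^s`. -/
def psum (x : Fin N → A) (s : ℕ) : A := ∑ i : Fin N, x i ^ s

/-- The power sum `p_Λ = p̃_{Λ_1} ⋯ p̃_{Λ_m} p_{Λ_{m+1}} ⋯ p_{Λ_ℓ}`. -/
def pow (x θ : Fin N → A) (Λ : SuperPartition n m) : A :=
  ((dec Λ.fer.val).map (ptil x θ)).prod * ((dec Λ.bos).map (psum x)).prod

/-- `B` is a bilinear form with
`⟨p_Λ, p_Ω⟩ = (-1)^{m(m-1)/2} α^ℓ z_{Λ^s} δ_{ΛΩ}` for all `Λ`, `Ω` of degree `(n|m)`, where
`ℓ = m + ℓ(Λ^s)`. -/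
structure IsScalarProduct (n m : ℕ) (x θ : Fin N → A) (B : A → A → K) : Prop where
  add_left : ∀ f g h, B (f + g) h = B f h + B g h
  add_right : ∀ f g h, B f (g + h) = B f g + B f h
  smul_left : ∀ (c : K) (f g), B (c • f) g = c * B f g
  smul_right : ∀ (c : K) (f g), B f (c • g) = c * B f g
  orth : ∀ Λ Ω : SuperPartition n m, Λ ≠ Ω → B (pow x θ Λ) (pow x θ Ω) = 0
  norm : ∀ Λ : SuperPartition n m, B (pow x θ Λ) (pow x θ Λ) =
    (-1) ^ (m.choose 2) * al ^ (m + Multiset.card Λ.bos) * (zee Λ : K)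

/-- `P` is the family of the Jack superpolynomials `P_Λ` of degree `(n|m)` in the variables `x_i`,
`θ_i`: `P_Λ - m_Λ` is a linear combination over `ℚ(α)` of the `m_Ω` with `Ω < Λ`, and the `P_Λ` are
pairwise orthogonal. -/
def IsJack (x θ : Fin N → A) (P : SuperPartition n m → A) : Prop :=
  (∀ Λ, P Λ - mon x θ Λ ∈ Submodule.span K (mon x θ '' {Ω | Dom Ω Λ ∧ Ω ≠ Λ})) ∧
  ∀ B, IsScalarProduct n m x θ B → ∀ Λ Ω, Λ ≠ Ω → B (P Λ) (P Ω) = 0

/-- The statement on the degree `(n|m)` in the variables `x_i`, `θ_i` (`i = 1, …, N`): the `m_Λ` are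
linearly independent, the `p_Λ` are a basis of the same space, the scalar product exists, and there
is exactly one family `P` of Jack superpolynomials, for which
`v_Λ(α) P_Λ = ∑_Ω w_{ΛΩ}(α) m_Ω`. -/
def HasIntegralForm (x θ : Fin N → A)
    (w : SuperPartition n m → SuperPartition n m → Polynomial ℤ) : Prop :=
  LinearIndependent K (mon x θ : SuperPartition n m → A) ∧
  LinearIndependent K (pow x θ : SuperPartition n m → A) ∧
  Submodule.span K (Set.range (pow x θ : SuperPartition n m → A)) =
    Submodule.span K (Set.range (mon x θ : SuperPartition n m → A)) ∧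
  (∃ B, IsScalarProduct n m x θ B) ∧
  ∃ P : SuperPartition n m → A, IsJack x θ P ∧ (∀ P', IsJack x θ P' → P' = P) ∧
    ∀ Λ, Polynomial.aeval al (vPol Λ) • P Λ = ∑ᶠ Ω, Polynomial.aeval al (w Λ Ω) • mon x θ Ω

end

section
variable {R V : Type} [CommRing R] [Algebra K R] [AddCommGroup V] [Module R V] [Module K V]
  [IsScalarTower K R V] {N : ℕ}

/-- `HasIntegralForm` in the exterior algebra of the `R`-module `V`, where the `x_i` are the
elements `x i` of the commutative `ℚ(α)`-algebra `R` and the `θ_i` are the vectors `e i` of `V`. -/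
def HasIntegralFormExt (x : Fin N → R) (e : Fin N → V)
    (w : SuperPartition n m → SuperPartition n m → Polynomial ℤ) : Prop :=
  HasIntegralForm (A := ExteriorAlgebra R V) (fun i => algebraMap R (ExteriorAlgebra R V) (x i))
    (fun i => ExteriorAlgebra.ι R (e i)) w

end

/-- The polynomials in `N` commuting variables over `ℚ(α)`. The superpolynomials in `N` commuting
and `N` anticommuting variables are the elements of the exterior algebra of the free module of
rank `N` over `Pol N`. -/
abbrev Pol (N : ℕ) : Type := MvPolynomial (Fin N) K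

/-- The commuting variable `x_i`. -/
noncomputable def xv (N : ℕ) (i : Fin N) : Pol N := MvPolynomial.X i

/-- The `i`-th vector of the standard basis of the free module of rank `N` over `Pol N`; it is the
anticommuting variable `θ_i`. -/
noncomputable def theta (N : ℕ) (i : Fin N) : Fin N → Pol N := fun j => if j = i then 1 else 0

end Pool.Agent.Helper61.JackStmt
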