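import Pool.Agent.Helper61.JackStmt.SDefs
import Pool.Agent.Helper61.Jack.C6

/-!
# Transfer to the definitions of the statement
-/

set_option autoImplicit false

open MvPolynomial

namespace Pool.Agent.Helper61.JackStmt

open Pool.Agent.Helper61

variable {n m : ℕ}

/-- The same superpartition. -/
def eqv : SuperPartition n m ≃ JackSuper.SuperPartition n m where
  toFun Λ := ⟨Λ.fer, Λ.bos, Λ.card_fer, Λ.bos_pos, Λ.sum_eq⟩
  invFun Λ := ⟨Λ.fer, Λ.bos, Λ.card_fer, Λ.bos_pos, Λ.sum_eq⟩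
  left_inv _ := rfl
  right_inv _ := rfl

lemma vPol_eq (Λ : SuperPartition n m) : vPol Λ = (eqv Λ).v := rfl

lemma Dom_iff (Ω Λ : SuperPartition n m) : Dom Ω Λ ↔ (eqv Ω).Dom (eqv Λ) := Iff.rfl

/-- The superpolynomials. -/
abbrev Sup (N : ℕ) : Type := ExteriorAlgebra (Pol N) (Fin N → Pol N)

/-- The commuting variable. -/
noncomputable def xs (N : ℕ) (i : Fin N) : Sup N := algebraMap (Pol N) (Sup N) (xv N i)

/-- The anticommuting variable. -/
noncomputable def ts (N : ℕ) (i : Fin N) : Sup N := ExteriorAlgebra.ι (Pol N) (theta N i)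

lemma theta_eq {N : ℕ} (i : Fin N) : ts N i = JackSuper.theta i := by
  unfold ts theta JackSuper.theta
  congr 1
  funext j
  rw [Pi.single_apply]

lemma ptil_eq (N r : ℕ) : ptil (xs N) (ts N) r = JackSuper.ptil N r := by
  unfold ptil JackSuper.ptil
  apply Finset.sum_congr rfl
  intro i _
  rw [map_pow, ← theta_eq]
  rfl

lemma psum_eq (N r : ℕ) : psum (xs N) r = JackSuper.psum N r := by
  unfold psum JackSuper.psum
  apply Finset.sum_congr rfl
  intro i _
  rw [map_pow]
  rfl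

lemma pow_eq (N : ℕ) (Λ : SuperPartition n m) :
    pow (xs N) (ts N) Λ = JackSuper.pow N (eqv Λ) := by
  have h1 : ptil (xs N) (ts N) = JackSuper.ptil N := funext (ptil_eq N)
  have h2 : psum (xs N) = JackSuper.psum N := funext (psum_eq N)
  unfold pow JackSuper.pow
  rw [h1, h2]
  rfl

lemma term_eq (N m : ℕ) (d : ℕ → ℕ) (σ : Equiv.Perm (Fin N)) :
    term (xs N) (ts N) m d σ = JackSuper.term N m d σ := by
  unfold term JackSuper.term
  have h1 : (algebraMap (JackSuper.Pol N) (JackSuper.SP N)) (∏ i : Fin N, X (σ i) ^ d i) =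
      ((List.finRange N).map (fun i => algebraMap (JackSuper.Pol N) (JackSuper.SP N)
        (X (σ i)) ^ d i)).prod := by
    rw [← List.prod_ofFn, map_list_prod, List.map_ofFn, List.ofFn_eq_map]
    congr 1
    apply List.map_congr_left
    intro i _
    rw [Function.comp_apply, map_pow]
  have h2 : (fun i : Fin N => JackSuper.theta (σ i)) = (fun i => ts N (σ i)) := by
    funext i
    exact (theta_eq (σ i)).symm
  rw [h1, h2]
  rfl

lemma mon_eq (N : ℕ) (Λ : SuperPartition n m) :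
    mon (xs N) (ts N) Λ = JackSuper.mon N (eqv Λ) := by
  have h1 : term (xs N) (ts N) m (fun i => (parts Λ).getD i 0) =
      JackSuper.term N m (fun i => (eqv Λ).parts.getD i 0) := funext (term_eq N m _)
  unfold mon JackSuper.mon
  rw [h1]
  rfl

lemma mon_comp (N : ℕ) : (mon (xs N) (ts N) : SuperPartition n m → Sup N) =
    (JackSuper.mon N : JackSuper.SuperPartition n m → JackSuper.SP N) ∘ eqv := by
  funext Λ
  exact mon_eq N Λ

lemma pow_comp (N : ℕ) : (pow (xs N) (ts N) : SuperPartition n m → Sup N) =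
    (JackSuper.pow N : JackSuper.SuperPartition n m → JackSuper.SP N) ∘ eqv := by
  funext Λ
  exact pow_eq N Λ

/-- From the structure to the bilinear map. -/
lemma sp_to {N : ℕ} {B : Sup N → Sup N → K} (hB : IsScalarProduct n m (xs N) (ts N) B) :
    ∃ B' : JackSuper.SP N →ₗ[JackSuper.K] JackSuper.SP N →ₗ[JackSuper.K] JackSuper.K,
      JackSuper.IsScalarProduct n m N B' ∧ ∀ f g, B' f g = B f g := by
  refine ⟨LinearMap.mk₂ JackSuper.K (fun f g : JackSuper.SP N => B f g) hB.add_left hB.smul_left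
    hB.add_right hB.smul_right, ?_, fun f g => rfl⟩
  intro Λ Ω
  have e1 := pow_eq N (eqv.symm Λ)
  have e2 := pow_eq N (eqv.symm Ω)
  rw [Equiv.apply_symm_apply] at e1 e2
  constructor
  · intro h
    have h1 := hB.orth (eqv.symm Λ) (eqv.symm Ω) (fun h' => h (eqv.symm.injective h'))
    rw [LinearMap.mk₂_apply, ← e1, ← e2]
    exact h1
  · have h1 := hB.norm (eqv.symm Λ)
    rw [LinearMap.mk₂_apply, ← e1]
    exact h1

/-- From the bilinear map to the structure. -/
lemma sp_of {N : ℕ} {B : JackSuper.SP N →ₗ[JackSuper.K] JackSuper.SP N →ₗ[JackSuper.K] JackSuper.K}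
    (hB : JackSuper.IsScalarProduct n m N B) :
    IsScalarProduct n m (xs N) (ts N) (fun f g : Sup N => B f g) where
  add_left f g h := LinearMap.map_add₂ B f g h
  add_right f g h := map_add (B f) g h
  smul_left c f g := LinearMap.map_smul₂ B c f g
  smul_right c f g := map_smul (B f) c g
  orth Λ Ω h := by
    have h1 := (hB (eqv Λ) (eqv Ω)).1 (fun h' => h (eqv.injective h'))
    rw [← pow_eq, ← pow_eq] at h1
    exact h1
  norm Λ := by
    have h1 := (hB (eqv Λ) (eqv Λ)).2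
    rw [← pow_eq] at h1
    exact h1

lemma jack_iff {N : ℕ} (P : SuperPartition n m → Sup N) :
    IsJack (xs N) (ts N) P ↔ JackSuper.IsJackFamily n m N (fun Λ => P (eqv.symm Λ)) := by
  have hset : ∀ Λ : SuperPartition n m,
      (mon (xs N) (ts N) '' {Ω | Dom Ω Λ ∧ Ω ≠ Λ}) =
      (JackSuper.mon N '' {Ω | Ω.Dom (eqv Λ) ∧ Ω ≠ eqv Λ}) := by
    intro Λ
    rw [mon_comp]
    ext x
    constructor
    · rintro ⟨Ω, ⟨h1, h2⟩, rfl⟩
      exact ⟨eqv Ω, ⟨h1, fun h => h2 (eqv.injective h)⟩, rfl⟩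
    · rintro ⟨Ω, ⟨h1, h2⟩, rfl⟩
      refine ⟨eqv.symm Ω, ⟨h1, fun h => h2 (by rw [← h, Equiv.apply_symm_apply])⟩, ?_⟩
      rw [Function.comp_apply, Equiv.apply_symm_apply]
  constructor
  · rintro ⟨h1, h2⟩
    constructor
    · intro Λ
      have h3 := h1 (eqv.symm Λ)
      rw [hset, mon_eq, Equiv.apply_symm_apply] at h3
      exact h3
    · intro B hB Λ Ω hne
      exact h2 _ (sp_of hB) (eqv.symm Λ) (eqv.symm Ω) (fun h => hne (eqv.symm.injective h))
  · rintro ⟨h1, h2⟩
    constructor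
    · intro Λ
      rw [hset, mon_eq]
      exact h1 (eqv Λ)
    · intro B hB Λ Ω hne
      obtain ⟨B', hB', he⟩ := sp_to hB
      rw [← he]
      exact h2 B' hB' (eqv Λ) (eqv Ω) (fun h => hne (eqv.injective h))

theorem main (n m : ℕ) : Finite (SuperPartition n m) ∧
    ∃ w : SuperPartition n m → SuperPartition n m → Polynomial ℤ,
      (∀ Λ, w Λ Λ = vPol Λ) ∧ (∀ Λ Ω, w Λ Ω ≠ 0 → Dom Ω Λ) ∧
      ∀ N, n + m ≤ N → HasIntegralFormExt (xv N) (theta N) w := by
  have hfin : Finite (SuperPartition n m) := Finite.of_equiv _ (eqv (n := n) (m := m)).symm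
  obtain ⟨w, h1, h2, h3⟩ := Jack.main n m
  refine ⟨hfin, fun Λ Ω => w (eqv Λ) (eqv Ω),
    fun Λ => h1 _, fun Λ Ω => h2 _ _, fun N hN => ?_⟩
  obtain ⟨a1, a2, a3, ⟨B, hB⟩, P, a5, a6, a7⟩ := h3 N hN
  show HasIntegralForm (xs N) (ts N) _
  refine ⟨?_, ?_, ?_, ⟨_, sp_of hB⟩, fun Λ => P (eqv Λ), ?_, ?_, ?_⟩
  · rw [mon_comp]
    exact a1.comp _ (eqv (n := n) (m := m)).injective
  · rw [pow_comp]
    exact a2.comp _ (eqv (n := n) (m := m)).injective
  · rw [mon_comp, pow_comp, EquivLike.range_comp, EquivLike.range_comp, a3]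
  · apply (jack_iff _).mpr
    have h4 : (fun Λ => P (eqv (eqv.symm Λ))) = P := by
      funext Λ
      rw [Equiv.apply_symm_apply]
    rw [h4]
    exact a5
  · intro P' hP'
    have h := a6 _ ((jack_iff P').mp hP')
    funext Λ
    rw [← h]
    show P' Λ = P' (eqv.symm (eqv Λ))
    rw [Equiv.symm_apply_apply]
  · intro Λ
    have h := a7 (eqv Λ)
    have h6 : (∑ᶠ Ω : SuperPartition n m, Polynomial.aeval JackSuper.al (w (eqv Λ) (eqv Ω)) •
          JackSuper.mon N (eqv Ω)) =
        ∑ Ω, Polynomial.aeval JackSuper.al (w (eqv Λ) Ω) • JackSuper.mon N Ω := by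
      rw [← finsum_eq_sum_of_fintype]
      exact finsum_comp_equiv (eqv (n := n) (m := m))
        (f := fun Ω => Polynomial.aeval JackSuper.al (w (eqv Λ) Ω) • JackSuper.mon N Ω)
    rw [← h6] at h
    simp only [mon_eq]
    exact h

end Pool.Agent.Helper61.JackStmt
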